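import Pool.Agent.H92BI.BB8

set_option autoImplicit false

namespace Pool.Agent.Results.MP_0cef13_al.BannaiItoOddFull

open Finset

/-- Parameter arrays over the reals, of diameter `d`; only the values with index at most `d` matter.
`φ` is the first split sequence, `ϕ` the second one. -/
structure ParamArray (d : ℕ) (θ θs φ ϕ : ℕ → ℝ) : Prop where
  pa1 : ∀ i j, i ≤ d → j ≤ d → i ≠ j → θ i ≠ θ j ∧ θs i ≠ θs j
  pa2 : ∀ i, 1 ≤ i → i ≤ d → φ i ≠ 0 ∧ ϕ i ≠ 0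
  pa3 : ∀ i, 1 ≤ i → i ≤ d → φ i =
    ϕ 1 * ∑ h ∈ range i, (θ h - θ (d - h)) / (θ 0 - θ d) + (θs i - θs 0) * (θ (i - 1) - θ d)
  pa4 : ∀ i, 1 ≤ i → i ≤ d → ϕ i =
    φ 1 * ∑ h ∈ range i, (θ h - θ (d - h)) / (θ 0 - θ d) + (θs i - θs 0) * (θ (d - i + 1) - θ 0)
  pa5 : ∀ i j, 2 ≤ i → i + 1 ≤ d → 2 ≤ j → j + 1 ≤ d →
    (θ (i - 2) - θ (i + 1)) / (θ (i - 1) - θ i) = (θs (j - 2) - θs (j + 1)) / (θs (j - 1) - θs j)

/-- The polynomial `u_i`, evaluated at `x`. -/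
noncomputable def u (θ θs φ : ℕ → ℝ) (i : ℕ) (x : ℝ) : ℝ :=
  ∑ n ∈ range (i + 1), (∏ h ∈ range n, (x - θ h)) * (∏ h ∈ range n, (θs i - θs h)) /
    ∏ h ∈ range n, φ (h + 1)

/-- Bannai/Ito arrays of odd diameter `d ≥ 3`: exact criterion for the bound. -/
theorem result (d n : ℕ) (hn : 1 ≤ n) (hd : d = 2 * n + 1) (θ θs φ ϕ : ℕ → ℝ) (hp : ParamArray d θ θs φ ϕ)
    (e g a e' g' a' : ℝ)
    (hθ : ∀ i, i ≤ d → θ i = e + g * (-1) ^ i * (a - i))
    (hθs : ∀ i, i ≤ d → θs i = e' + g' * (-1) ^ i * (a' - i)) :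
    (∀ i j, i ≤ d → j ≤ d → |u θ θs φ i (θ j)| ≤ 1) ↔
    ((d : ℝ) / 2 < a ∧ (d : ℝ) / 2 < a' ∧ |u θ θs φ 1 (θ 1)| ≤ 1 ∧ |u θ θs φ d (θ d)| ≤ 1) := by
  subst hd
  obtain ⟨hg, hg', x, hφ, hf, hall⟩ := Pool.Agent.H92BI.array_odd (n := n) (θ := θ) (θs := θs) (φ := φ) (ϕ := ϕ)
    hp.pa1 (fun i h1 h2 => (hp.pa2 i h1 h2).1) hp.pa3 hθ hθs
  have hx0 : x ≠ 0 := by
    have := hf 0 (Nat.zero_le _)
    rwa [Pool.Agent.H92BI.fb_zero] at this
  have hn0 : (0 : ℝ) ≤ n := by positivity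
  -- differences
  have hne : ∀ (z : ℕ → ℝ) (e g a : ℝ), (∀ i, i ≤ 2 * n + 1 → z i = e + g * (-1) ^ i * (a - i)) →
      (∀ i j, i ≤ 2 * n + 1 → j ≤ 2 * n + 1 → i ≠ j → z i ≠ z j) →
      ∀ j : ℕ, j ≤ 2 * n → a - 1 / 2 ≠ j := by
    intro z e g a hz hinj j hj h
    obtain ⟨r, s, hr, hs, hrs⟩ : ∃ r s : ℕ, r ≤ n ∧ s ≤ n ∧ r + s = j :=
      ⟨min j n, j - min j n, by omega, by omega, by omega⟩
    apply hinj (2 * r) (2 * s + 1) (by omega) (by omega) (by omega)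
    rw [Pool.Agent.H92BI.seq_even hz r hr, Pool.Agent.H92BI.seq_odd hz s hs]
    have h2 : (j : ℝ) = r + s := by rw [← hrs]; push_cast; ring
    have h3 : a = r + s + 1 / 2 := by linarith
    rw [h3]; ring
  have hcast : ((2 * n + 1 : ℕ) : ℝ) = 2 * n + 1 := by push_cast; ring
  have key := Pool.Agent.H92BI.Ent_iff_full hn (p := a - 1 / 2) (q := a' - 1 / 2) hx0 hf
    (hne θ e g a hθ (fun i j h1 h2 h3 => (hp.pa1 i j h1 h2 h3).1))
    (hne θs e' g' a' hθs (fun i j h1 h2 h3 => (hp.pa1 i j h1 h2 h3).2))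
  have e1 : u θ θs φ 1 (θ 1) = 1 - (a - 1 / 2) * (a' - 1 / 2) / x := by
    have := hall 0 0 (by omega) (by omega) 1 1 le_rfl le_rfl
    rw [show 2 * 0 + 1 = 1 from rfl] at this
    unfold u
    rw [this]
    simp only [one_ne_zero, if_false]
    rw [Pool.Agent.H92BI.Ent_row0]
    push_cast
    ring
  have e2 : u θ θs φ (2 * n + 1) (θ (2 * n + 1)) = Pool.Agent.H92BI.Ent n (a - 1 / 2) (a' - 1 / 2) x n n
      ((a' - 1 / 2) - n) ((a - 1 / 2) - n) := by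
    have := hall n n le_rfl le_rfl 1 1 le_rfl le_rfl
    unfold u
    rw [this]
    simp only [one_ne_zero, if_false]
  rw [e1, e2, hcast]
  constructor
  · intro h
    have := key.1 (fun I M hI hM => by
      have a1 := hall I M hI hM 0 0 (by omega) (by omega)
      have a2 := hall I M hI hM 0 1 (by omega) (by omega)
      have a3 := hall I M hI hM 1 0 (by omega) (by omega)
      have a4 := hall I M hI hM 1 1 (by omega) (by omega)
      simp only [if_true, one_ne_zero, if_false, add_zero] at a1 a2 a3 a4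
      refine ⟨?_, ?_, ?_, ?_⟩
      · rw [← a1]; exact h (2 * I) (2 * M) (by omega) (by omega)
      · rw [← a2]; exact h (2 * I) (2 * M + 1) (by omega) (by omega)
      · rw [← a3]; exact h (2 * I + 1) (2 * M) (by omega) (by omega)
      · rw [← a4]; exact h (2 * I + 1) (2 * M + 1) (by omega) (by omega))
    exact ⟨by linarith [this.1], by linarith [this.2.1], this.2.2.1, this.2.2.2⟩
  · rintro ⟨h1, h2, h3, h4⟩ i j hi hj
    have hk := key.2 ⟨by linarith, by linarith, h3, h4⟩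
    obtain ⟨I, b, hb, hib⟩ : ∃ I b, b ≤ 1 ∧ i = 2 * I + b := ⟨i / 2, i % 2, by omega, by omega⟩
    obtain ⟨M, b', hb', hjb⟩ : ∃ M b, b ≤ 1 ∧ j = 2 * M + b := ⟨j / 2, j % 2, by omega, by omega⟩
    subst hib; subst hjb
    have hI : I ≤ n := by omega
    have hM : M ≤ n := by omega
    have hv := hall I M hI hM b b' hb hb'
    unfold u
    rw [hv]
    have hb2 : b = 0 ∨ b = 1 := by omega
    have hb2' : b' = 0 ∨ b' = 1 := by omega
    rcases hb2 with rfl | rfl <;> rcases hb2' with rfl | rfl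
    · simp only [if_true]; exact (hk I M hI hM).1
    · simp only [if_true, one_ne_zero, if_false]; exact (hk I M hI hM).2.1
    · simp only [if_true, one_ne_zero, if_false]; exact (hk I M hI hM).2.2.1
    · simp only [one_ne_zero, if_false]; exact (hk I M hI hM).2.2.2

end Pool.Agent.Results.MP_0cef13_al.BannaiItoOddFull
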