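import Pool.Agent.H92LS.Assemble

set_option autoImplicit false

namespace Pool.Agent.Results.MP_0cef13_al.MonotoneCriterion

open Finset

/-- Parameter arrays over the reals, of diameter `d`; only the values with index at most `d` matter.
`φ` is the first split sequence, `ϕ` the second one. -/
structure ParamArray (d : ℕ) (θ θs φ ϕ : ℕ → ℝ) : Prop where
  pa1 : ∀ i j, i ≤ d → j ≤ d → i ≠ j → θ i ≠ θ j ∧ θs i ≠ θs j
  pa2 : ∀ i, 1 ≤ i → i ≤ d → φ i ≠ 0 ∧ ϕ i ≠ 0
  pa3 : ∀ i, 1 ≤ i → i ≤ d → φ i =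
    ϕ 1 * ∑ h ∈ range i, (θ h - θ (d - h)) / (θ 0 - θ d) + (θs i - θs 0) * (θ (i - 1) - θ d)
  pa4 : ∀ i, 1 ≤ i → i ≤ d → ϕ i =
    φ 1 * ∑ h ∈ range i, (θ h - θ (d - h)) / (θ 0 - θ d) + (θs i - θs 0) * (θ (d - i + 1) - θ 0)
  pa5 : ∀ i j, 2 ≤ i → i + 1 ≤ d → 2 ≤ j → j + 1 ≤ d →
    (θ (i - 2) - θ (i + 1)) / (θ (i - 1) - θ i) = (θs (j - 2) - θs (j + 1)) / (θs (j - 1) - θs j)

/-- The polynomial `u_i`, evaluated at `x`. -/
noncomputable def u (θ θs φ : ℕ → ℝ) (i : ℕ) (x : ℝ) : ℝ :=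
  ∑ n ∈ range (i + 1), (∏ h ∈ range n, (x - θ h)) * (∏ h ∈ range n, (θs i - θs h)) /
    ∏ h ∈ range n, φ (h + 1)

/-- strictly monotone on `0..d` -/
def StrictOn (d : ℕ) (x : ℕ → ℝ) : Prop :=
  (∀ i, i + 1 ≤ d → x i < x (i + 1)) ∨ (∀ i, i + 1 ≤ d → x (i + 1) < x i)

/-- the steps strictly grow -/
def Grow (d : ℕ) (x : ℕ → ℝ) : Prop := ∀ i, i + 2 ≤ d → |x (i + 1) - x i| < |x (i + 2) - x (i + 1)|

/-- the steps never grow -/
def Slow (d : ℕ) (x : ℕ → ℝ) : Prop := ∀ i, i + 2 ≤ d → |x (i + 2) - x (i + 1)| ≤ |x (i + 1) - x i|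

/-- Class 1: `x` is strictly monotone and its steps never grow, or `x` is strictly monotone, `y` is not,
and the second step of `x` is at most the first one or the last but one at most the last one. -/
def Class1 (d : ℕ) (x y : ℕ → ℝ) : Prop :=
  StrictOn d x ∧ (Slow d x ∨
    (¬ StrictOn d y ∧ (|x 2 - x 1| ≤ |x 1 - x 0| ∨ |x (d - 1) - x (d - 2)| ≤ |x d - x (d - 1)|)))

/-- Class 2: both sequences are `a + b q^i + c q^(-i)` with the same `q > 0`, or both are `a + b i + c i^2`;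
at least one is strictly monotone; excluded is only that the steps of both grow (in the first form,
moreover with `b c > 0` for both). -/
def Class2 (d : ℕ) (x y : ℕ → ℝ) : Prop :=
  (StrictOn d x ∨ StrictOn d y) ∧
  ((∃ q a b c a' b' c' : ℝ, 0 < q ∧
      (∀ i, i ≤ d → x i = a + b * q ^ i + c / q ^ i ∧ y i = a' + b' * q ^ i + c' / q ^ i) ∧
      ¬ (0 < b * c ∧ 0 < b' * c' ∧ Grow d x ∧ Grow d y)) ∨
   (∃ a b c a' b' c' : ℝ,
      (∀ i : ℕ, i ≤ d → x i = a + b * i + c * (i : ℝ) ^ 2 ∧ y i = a' + b' * i + c' * (i : ℝ) ^ 2) ∧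
      ¬ (Grow d x ∧ Grow d y)))

/-- Class 3: `θ` or `θs` is strictly monotone, and `|ϕ_i| ≤ |φ_1 ϑ_i|` for `2 ≤ i ≤ d - 1`, where
`ϑ_i` is the sum in (PA4). -/
def Class3 (d : ℕ) (θ θs φ ϕ : ℕ → ℝ) : Prop :=
  (StrictOn d θ ∨ StrictOn d θs) ∧
  ∀ i, 2 ≤ i → i + 1 ≤ d → |ϕ i| ≤ |φ 1 * ∑ h ∈ range i, (θ h - θ (d - h)) / (θ 0 - θ d)|

open Pool.Agent.H92LS in
/-- transfer of the third class -/
theorem class3_rows {c : ℝ} {k l θ φ ϕ : ℕ → ℝ} {d : ℕ} (hd : 1 ≤ d) (hk : Rc c k)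
    (hs : ∀ m, 1 ≤ m → m ≤ d → 0 < S c m) (hx : ∀ i, i + 1 ≤ d → θ (i + 1) - θ i = k (2 * i + 1))
    (hk0 : ∀ i, 1 ≤ i → i ≤ d → k i ≠ 0) {F1 : ℝ}
    (hφ1 : φ 1 = S c d * F1)
    (hϕ : ∀ m, 1 ≤ m → m ≤ d → ϕ m = S c m * S c (d + 1 - m) * Gs k l d F1 m)
    (h : ∀ i, 2 ≤ i → i + 1 ≤ d → |ϕ i| ≤ |φ 1 * ∑ h ∈ range i, (θ h - θ (d - h)) / (θ 0 - θ d)|) :
    RowOK d k l F1 ∧ RowOK d l k F1 := by
  have hSd : S c d ≠ 0 := (hs d hd le_rfl).ne'
  have hth := theta_sum (sum_form' hk hx) hSd (hk0 d hd le_rfl)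
  have key : ∀ i, 2 ≤ i → i + 1 ≤ d → |Gs k l d F1 i| ≤ |F1| := by
    intro i a b
    have h1 := h i a b
    rw [hϕ i (by omega) (by omega), hφ1, hth i (by omega)] at h1
    have e : S c d * F1 * (S c i * S c (d + 1 - i) / S c d) = (S c i * S c (d + 1 - i)) * F1 := by
      field_simp
    rw [e, abs_mul, abs_mul (S c i * S c (d + 1 - i)) F1] at h1
    have hpos : 0 < |S c i * S c (d + 1 - i)| :=
      abs_pos.2 (mul_ne_zero (hs _ (by omega) (by omega)).ne' (hs _ (by omega) (by omega)).ne')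
    exact le_of_mul_le_mul_left h1 hpos
  constructor
  · intro i a b
    right
    rw [Fs_zero]
    exact key i a b
  · intro i a b
    right
    rw [Fs_zero, Gs_swap k l F1 (by omega)]
    exact key _ (by omega) (by omega)

open Pool.Agent.H92LS in
/-- Exact criterion for the bound `|u_i(θ_j)| ≤ 1` for all real parameter arrays in the classes above. -/
theorem result (d : ℕ) (θ θs φ ϕ : ℕ → ℝ) (hp : ParamArray d θ θs φ ϕ)
    (ht : Class1 d θ θs ∨ Class1 d θs θ ∨ Class2 d θ θs ∨ Class3 d θ θs φ ϕ) :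
    (∀ i j, i ≤ d → j ≤ d → |u θ θs φ i (θ j)| ≤ 1) ↔
    (∀ i, 1 ≤ i → i ≤ d →
      |∏ h ∈ range i, ϕ (h + 1)| ≤ |∏ h ∈ range i, φ (h + 1)| ∧
      |∏ h ∈ range i, ϕ (d - h)| ≤ |∏ h ∈ range i, φ (h + 1)|) := by
  rcases Nat.eq_zero_or_pos d with hd | hd
  · subst hd
    constructor
    · intro _ i h1 h2; omega
    · intro _ i j hi hj
      have h1 : i = 0 := by omega
      subst h1
      simp [u]
  · unfold u
    have hne1 : ∀ i j, i ≤ d → j ≤ d → i ≠ j → θ i ≠ θ j := fun i j a b c => (hp.pa1 i j a b c).1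
    have hne2 : ∀ i j, i ≤ d → j ≤ d → i ≠ j → θs i ≠ θs j := fun i j a b c => (hp.pa1 i j a b c).2
    have setup2 : SM d θs → ∃ (c : ℝ) (k l : ℕ → ℝ), 0 < c ∧ Rc c k ∧ Rc c l ∧
        (∀ i, i + 1 ≤ d → θ (i + 1) - θ i = k (2 * i + 1)) ∧
        (∀ i, i + 1 ≤ d → θs (i + 1) - θs i = l (2 * i + 1)) := by
      intro h
      obtain ⟨c, l, k, hc, hl, hk, hy, hx⟩ := setup
        (fun i j hi hj hij => ((hp.pa1 i j hi hj hij).symm))
        (fun i j a1 a2 a3 a4 => (hp.pa5 j i a3 a4 a1 a2).symm) h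
      exact ⟨c, k, l, hc, hk, hl, hx, hy⟩
    rcases ht with h | h | h | h
    · -- class 1
      obtain ⟨hSM, hA⟩ := h
      obtain ⟨c, k, l, hc, hk, hl, hx, hy⟩ := setup hp.pa1 hp.pa5 hSM
      have hs := S_pos_of_SM hc hk hx hSM
      refine array_crit hk hl hd hs hp.pa1 hp.pa2 hp.pa3 hp.pa4 hx hy ?_
      intro F1 hF1 _ _ hB
      exact pickA hc hk hl hs hx hy (nz hl hy hne2) hF1 hB hSM hA
    · -- class 1, exchanged
      obtain ⟨hSM, hA⟩ := h
      obtain ⟨c, k, l, hc, hk, hl, hx, hy⟩ := setup2 hSM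
      have hs := S_pos_of_SM hc hl hy hSM
      refine array_crit hk hl hd hs hp.pa1 hp.pa2 hp.pa3 hp.pa4 hx hy ?_
      intro F1 hF1 _ _ hB
      have hB' : Border d (Fs l k d F1) (Gs l k d F1) := by
        rw [Fs_swap hk hl hd F1]; exact Border_swap k l _ F1 hB
      exact (pickA hc hl hk hs hy hx (nz hk hx hne1) hF1 hB' hSM hA).symm
    · -- class 2
      obtain ⟨hmon, hform⟩ := h
      rcases hform with ⟨q, a, b, c, a', b', c', hq, hxy, hno⟩ | ⟨a, b, c, a', b', c', hxy, hno⟩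
      · obtain ⟨p, B, C, B', C', hp1, hBC, hBC', hx, hy⟩ :=
          dataHyp hd (hne1 0 1 (by omega) hd (by omega)) hq hxy
        have hp0 : 0 < p := by linarith
        have hc : 2 ≤ p + 1 / p := by
          have : p + 1 / p - 2 = (p - 1) ^ 2 / p := by field_simp; ring
          have h2 : 0 ≤ (p - 1) ^ 2 / p := by positivity
          linarith
        have hs : ∀ m, 1 ≤ m → m ≤ d → 0 < S (p + 1 / p) m := by
          intro m h1 _
          have := (S_pos hc (m - 1)).1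
          rwa [show m - 1 + 1 = m by omega] at this
        have hk := hyp_Rc hp1 B C
        have hl := hyp_Rc hp1 B' C'
        refine array_crit hk hl hd hs hp.pa1 hp.pa2 hp.pa3 hp.pa4 hx hy ?_
        intro F1 hF1 _ _ hB
        rcases hmon with hm | hm
        · left
          have hok := oneSign_of_SM (by linarith) hk hx hm
          refine ⟨hok, rows_hyp hp1 (hyp_form p B C) (hyp_form p B' C') hl hs hok (nz hl hy hne2) hF1 hB ?_⟩
          rintro ⟨g1, g2, g3⟩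
          have g4 := GG_iff hx hy g3
          exact hno ⟨by rw [← hBC]; exact hyp_sign hp1 g1, by rw [← hBC']; exact hyp_sign hp1 g2, g4.1, g4.2⟩
        · right
          have hok := oneSign_of_SM (by linarith) hl hy hm
          have hB' : Border d (Fs (hyp p B' C') (hyp p B C) d F1) (Gs (hyp p B' C') (hyp p B C) d F1) := by
            rw [Fs_swap hk hl hd F1]; exact Border_swap _ _ _ F1 hB
          refine ⟨hok, rows_hyp hp1 (hyp_form p B' C') (hyp_form p B C) hk hs hok (nz hk hx hne1) hF1 hB' ?_⟩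
          rintro ⟨g1, g2, g3⟩
          have g4 := GG_iff hx hy (GG_swap g3)
          exact hno ⟨by rw [← hBC]; exact hyp_sign hp1 g2, by rw [← hBC']; exact hyp_sign hp1 g1, g4.1, g4.2⟩
      · have hk : Rc 2 (fun m : ℕ => b + c * (m : ℝ)) := by intro m; push_cast; ring
        have hl : Rc 2 (fun m : ℕ => b' + c' * (m : ℝ)) := by intro m; push_cast; ring
        have hx : ∀ i, i + 1 ≤ d → θ (i + 1) - θ i = (fun m : ℕ => b + c * (m : ℝ)) (2 * i + 1) := by
          intro i hi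
          rw [(hxy i (by omega)).1, (hxy (i + 1) hi).1]
          push_cast
          ring
        have hy : ∀ i, i + 1 ≤ d → θs (i + 1) - θs i = (fun m : ℕ => b' + c' * (m : ℝ)) (2 * i + 1) := by
          intro i hi
          rw [(hxy i (by omega)).2, (hxy (i + 1) hi).2]
          push_cast
          ring
        have hs : ∀ m, 1 ≤ m → m ≤ d → 0 < S 2 m := by
          intro m h1 _
          have := (S_pos (le_refl (2 : ℝ)) (m - 1)).1
          rwa [show m - 1 + 1 = m by omega] at this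
        refine array_crit hk hl hd hs hp.pa1 hp.pa2 hp.pa3 hp.pa4 hx hy ?_
        intro F1 hF1 _ _ hB
        rcases hmon with hm | hm
        · left
          have hok := oneSign_of_SM (by norm_num) hk hx hm
          refine ⟨hok, rows_lin (fun m => rfl) (fun m => rfl) hl hs hok (nz hl hy hne2) hF1 hB ?_⟩
          intro g3
          have g4 := GG_iff hx hy g3
          exact hno ⟨g4.1, g4.2⟩
        · right
          have hok := oneSign_of_SM (by norm_num) hl hy hm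
          have hB' : Border d (Fs (fun m : ℕ => b' + c' * (m : ℝ)) (fun m : ℕ => b + c * (m : ℝ)) d F1)
              (Gs (fun m : ℕ => b' + c' * (m : ℝ)) (fun m : ℕ => b + c * (m : ℝ)) d F1) := by
            rw [Fs_swap hk hl hd F1]; exact Border_swap _ _ _ F1 hB
          refine ⟨hok, rows_lin (fun m => rfl) (fun m => rfl) hk hs hok (nz hk hx hne1) hF1 hB' ?_⟩
          intro g3
          have g4 := GG_iff hx hy (GG_swap g3)
          exact hno ⟨g4.1, g4.2⟩
    · -- class 3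
      obtain ⟨hmon, hrat⟩ := h
      rcases hmon with hm | hm
      · obtain ⟨c, k, l, hc, hk, hl, hx, hy⟩ := setup hp.pa1 hp.pa5 hm
        have hs := S_pos_of_SM hc hk hx hm
        refine array_crit hk hl hd hs hp.pa1 hp.pa2 hp.pa3 hp.pa4 hx hy ?_
        intro F1 hF1 hφ1 hϕ hB
        left
        exact ⟨oneSign_of_SM hc hk hx hm,
          (class3_rows hd hk hs hx (nz hk hx hne1) hφ1 hϕ hrat).1⟩
      · obtain ⟨c, k, l, hc, hk, hl, hx, hy⟩ := setup2 hm
        have hs := S_pos_of_SM hc hl hy hm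
        refine array_crit hk hl hd hs hp.pa1 hp.pa2 hp.pa3 hp.pa4 hx hy ?_
        intro F1 hF1 hφ1 hϕ hB
        right
        exact ⟨oneSign_of_SM hc hl hy hm,
          (class3_rows hd hk hs hx (nz hk hx hne1) hφ1 hϕ hrat).2⟩

end Pool.Agent.Results.MP_0cef13_al.MonotoneCriterion
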